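import Pool.Agent.H429R4.TR.Sq

/-!
# Probabilistic circuits with arbitrary gates for all-pairs shortest paths

The gates of a circuit (`Circuit`) compute arbitrary functions of the multiset of the labels and
values on their wires, with unbounded fan-in and values in an arbitrary set: sums, minima,
comparisons, look-ups. The wiring of a gate consists of the entry of the adjacency matrix it reads
and of the labels and functions on its wires (as functions of the graph); `numWirings` is the
number of different transforms of the wirings of all gates under relabelings of the vertices.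
No symmetry of the circuits is assumed.

1. Let the vertex set consist of three families of `r` pairs of vertices, and a rest. There is an
   elementary abelian group `Γ` of at most `2 r` permutations (swaps of the pairs of one family)
   such that every probabilistic circuit that finds, for every graph with probability `1 - ε`, which
   pairs of vertices are connected by a path (for instance one that computes all distances) has an
   expected number of wirings up to `Γ × Γ × Γ` of at least `(1 - 2 ε) r ^ 3`.
2. Repeated squaring computes all distances in the graphs on `n ≤ 2 ^ N` vertices with at most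
   `N n ^ 3 + (N + 1) n ^ 2` wirings up to all relabelings of the `n` vertices.
-/

set_option autoImplicit false

namespace Pool.Agent.Results.MP_885423_lc.AllPairsWirings

open Finset
open Pool.Agent.H429R4.FW Pool.Agent.H429R4.TR

open Classical in
theorem result :
    -- probabilistic circuits for all-pairs connectivity
    (∀ r : ℕ, 1 ≤ r → ∃ Γ : AddSubgroup (Fin r → ZMod 2), Nat.card Γ ≤ 2 * r ∧
      ∀ (Z Ω : Type) [Fintype Z] [Fintype Ω] (p : Ω → ℝ),
        (∀ ω, 0 ≤ p ω) → ∑ ω, p ω = 1 →
        ∀ (D L : Type) (dec : D → Prop) (C : Ω → Circuit Bool (Kx r Z × Kx r Z) D L)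
          (out : ∀ ω, Kx r Z → Kx r Z → (C ω).Gate) (ε : ℝ),
          (∀ G : SimpleGraph (Kx r Z), ∑ ω with ¬ RightC (C ω) (out ω) dec G, p ω ≤ ε) →
          ∀ A : Set (Kx r Z → Kx r Z),
            (∀ x : Fin 3 → Fin r → ZMod 2, (∀ i, x i ∈ Γ) → swG x ∈ A) →
            (1 - 2 * ε) * (r : ℝ) ^ 3 ≤
              ∑ ω, p ω * (numWirings adjG (C ω) (pullG '' A) : ℝ)) ∧
    -- repeated squaring
    (∀ (V : Type) [Fintype V] [Nonempty V] (N : ℕ), Fintype.card V ≤ 2 ^ N →
      ∃ (C : Circuit Bool (V × V) ℕ∞ Unit) (out : V → V → C.Gate),
        (∀ (G : SimpleGraph V) (p q : V), value adjG C (out p q) G = G.edist p q) ∧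
        (∀ G : SimpleGraph V, RightC C out (fun d => d ≠ ⊤) G) ∧
        numWirings adjG C (pullG '' {f | ∃ π : Equiv.Perm V, f = π}) ≤
          N * Fintype.card V ^ 3 + (N + 1) * Fintype.card V ^ 2) := by
  refine ⟨conn_bound, ?_⟩
  intro V _ hV N hN
  obtain ⟨v⟩ := hV
  have h1 : ∀ (G : SimpleGraph V) (p q : V),
      value adjG (sqC N V (.inl (0, v, v))) (.inl (Fin.last N, p, q)) G = G.edist p q := by
    intro G p q
    rw [dvalue, Fin.val_last]
    exact trunc_last hN G p q
  refine ⟨sqC N V (.inl (0, v, v)), fun p q => .inl (Fin.last N, p, q), h1, ?_, sq_wirings⟩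
  intro G p q
  change value adjG (sqC N V (.inl (0, v, v))) (.inl (Fin.last N, p, q)) G ≠ ⊤ ↔ _
  rw [h1 G p q]
  exact SimpleGraph.edist_ne_top_iff_reachable

end Pool.Agent.Results.MP_885423_lc.AllPairsWirings
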